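import Pool.Agent.H983R2.ONJ.Defs
import Pool.Agent.H5R2.ON.Basic
import Pool.Agent.H12R2.ON.LocRot
import Pool.Agent.H65R2.ON3.Gib1

/-! # Task GIB1: the finite volume Gibbs states of a multigraph are Gibbs functionals, port of
`Pool.Agent.H65R2.ON3.Gib1` -/

set_option autoImplicit false

noncomputable section

namespace Pool.Agent.H983R2.ONJ

open MvPolynomial MeasureTheory Pool.Agent.H5R2.ON Pool.Agent.H717R2.ON3 Pool.Agent.H12R2.ON

namespace Aux221

open Pool.Agent.H717R2.ON3.GIB1 (continuous_cc continuous_splice continuous_pt continuous_evalpt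
  pt_le T T_ne T_x T_zero coord_deriv inner_deriv eval_deriv path_deriv fin3_ne integral_const_T)

variable {N L : ℕ} {ι : Type} [Fintype ι]

theorem continuous_enG (G : Gr (Tor L) ι) : Continuous (enG G : Conf N L → ℝ) := by
  unfold enG
  refine continuous_finsetSum _ fun e _ => ?_
  exact (continuous_subtype_val.comp (continuous_apply _)).inner
    (continuous_subtype_val.comp (continuous_apply _))

variable [NeZero L]

/-- weighted evaluation -/
def wt (G : Gr (Tor L) ι) (β : ℝ) (c : Fin 3 → Fin N) (F : Alg (Tor L)) (S : Conf N L) : ℝ :=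
  eval (pt c S) F * Real.exp (β * enG G S)

theorem continuous_wt (G : Gr (Tor L) ι) (β : ℝ) (c : Fin 3 → Fin N) (F : Alg (Tor L)) :
    Continuous (wt G β c F : Conf N L → ℝ) :=
  (continuous_evalpt c F).mul (Real.continuous_exp.comp
    (continuous_const.mul (continuous_enG G)))

theorem integrable_wt (G : Gr (Tor L) ι) (β : ℝ) (Λ : Finset (Tor L)) (η : Conf N L)
    (c : Fin 3 → Fin N) (F : Alg (Tor L)) :
    Integrable (fun S => wt G β c F (splice Λ S η)) (prior N L) :=
  integrable_prior N L ((continuous_wt G β c F).comp (continuous_splice Λ η))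

theorem gH_eq (G : Gr (Tor L) ι) (β : ℝ) (Λ : Finset (Tor L)) (η : Conf N L) (c : Fin 3 → Fin N)
    (F : Alg (Tor L)) : gH (fun S => β * enG G S) Λ η (fun S => eval (pt c S) F) =
      (∫ S, wt G β c F (splice Λ S η) ∂(prior N L)) /
        ∫ S, Real.exp (β * enG G (splice Λ S η)) ∂(prior N L) := rfl

theorem Z_pos (hN : N ≠ 0) (G : Gr (Tor L) ι) (β : ℝ) (Λ : Finset (Tor L)) (η : Conf N L) :
    0 < ∫ S, Real.exp (β * enG G (splice Λ S η)) ∂(prior N L) := by
  haveI := prior_isProbabilityMeasure N L hN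
  exact integral_exp_pos (integrable_prior N L (Real.continuous_exp.comp
    (continuous_const.mul ((continuous_enG G).comp (continuous_splice Λ η)))))

/-- the linear functional -/
def EE (G : Gr (Tor L) ι) (β : ℝ) (Λ : Finset (Tor L)) (η : Conf N L) (c : Fin 3 → Fin N) :
    Alg (Tor L) →ₗ[ℝ] ℝ where
  toFun F := gH (fun S => β * enG G S) Λ η (fun S => eval (pt c S) F)
  map_add' F F' := by
    simp only [gH_eq]
    rw [← add_div, ← integral_add (integrable_wt G β Λ η c F) (integrable_wt G β Λ η c F')]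
    congr 1
    refine integral_congr_ae (Filter.Eventually.of_forall fun S => ?_)
    simp only [wt, map_add, add_mul]
  map_smul' r F := by
    simp only [gH_eq, RingHom.id_apply, smul_eq_mul]
    rw [← mul_div_assoc, ← integral_const_mul]
    congr 1
    refine integral_congr_ae (Filter.Eventually.of_forall fun S => ?_)
    simp only [wt, smul_eval, mul_assoc]

theorem EE_one (hN : N ≠ 0) (G : Gr (Tor L) ι) (β : ℝ) (Λ : Finset (Tor L)) (η : Conf N L)
    (c : Fin 3 → Fin N) : EE G β Λ η c 1 = 1 := by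
  show gH (fun S => β * enG G S) Λ η (fun S => eval (pt c S) 1) = 1
  rw [gH_eq]
  have : ∀ S : Conf N L, wt G β c 1 (splice Λ S η) = Real.exp (β * enG G (splice Λ S η)) := by
    intro S
    simp [wt]
  simp only [this]
  exact div_self (Z_pos hN G β Λ η).ne'

theorem EE_pos (hN : N ≠ 0) (G : Gr (Tor L) ι) (β : ℝ) (Λ : Finset (Tor L)) (η : Conf N L)
    (c : Fin 3 → Fin N) (hc : Function.Injective c) (F : Alg (Tor L))
    (hF : ∀ σ : Tor L × Fin 3 → ℝ,
      (∀ x, σ (x, 0) ^ 2 + σ (x, 1) ^ 2 + σ (x, 2) ^ 2 ≤ 1) → 0 ≤ eval σ F) :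
    0 ≤ EE G β Λ η c F := by
  show 0 ≤ gH (fun S => β * enG G S) Λ η (fun S => eval (pt c S) F)
  rw [gH_eq]
  refine div_nonneg (integral_nonneg fun S => ?_) (Z_pos hN G β Λ η).le
  exact mul_nonneg (hF _ fun x => pt_le c hc _ x) (Real.exp_nonneg _)

/-- derivative of the energy -/
theorem enG_deriv {c : Fin 3 → Fin N} (G : Gr (Tor L) ι) (β : ℝ) (g : Fin 3)
    (hpk : c (g + 1) ≠ c (g + 2)) (x : Tor L) (Λ : Finset (Tor L)) (η : Conf N L) (hx : x ∈ Λ)
    (t : ℝ) (S : Conf N L) :
    HasDerivAt (fun s => β * enG G (T hpk x Λ η s S))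
      (-(eval (pt c (T hpk x Λ η t S)) (S1 G β x g))) t := by
  have h1 : HasDerivAt (fun s => enG G (T hpk x Λ η s S))
      (∑ e : ι, ((if G.s e = x then (1 : ℝ) else 0) - (if G.t e = x then 1 else 0)) *
        ((T hpk x Λ η t S (G.s e) : EuclideanSpace ℝ (Fin N)) (c (g + 1)) *
          (T hpk x Λ η t S (G.t e) : EuclideanSpace ℝ (Fin N)) (c (g + 2)) -
        (T hpk x Λ η t S (G.s e) : EuclideanSpace ℝ (Fin N)) (c (g + 2)) *
          (T hpk x Λ η t S (G.t e) : EuclideanSpace ℝ (Fin N)) (c (g + 1)))) t := by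
    unfold enG
    exact HasDerivAt.fun_sum fun e _ => inner_deriv hpk x Λ η hx t S (G.s e) (G.t e)
  refine (h1.const_mul β).congr_deriv ?_
  simp only [S1, Sc, JJ, map_sum, smul_eval, cur, map_sub, map_mul, eval_X, grad, pt, cc]
  rw [← Finset.sum_neg_distrib, Finset.mul_sum]
  refine Finset.sum_congr rfl fun e _ => ?_
  simp only [Pi.single_apply]
  ring

/-- the derivative of the weighted observable -/
theorem wt_deriv {c : Fin 3 → Fin N} (hc : Function.Injective c) (G : Gr (Tor L) ι) (β : ℝ)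
    (g : Fin 3) (hpk : c (g + 1) ≠ c (g + 2)) (x : Tor L) (Λ : Finset (Tor L)) (η : Conf N L)
    (hx : x ∈ Λ) (F : Alg (Tor L)) (t : ℝ) (S : Conf N L) :
    HasDerivAt (fun s => wt G β c F (T hpk x Λ η s S))
      (wt G β c (D x g F - S1 G β x g * F) (T hpk x Λ η t S)) t := by
  unfold wt
  have h1 := eval_deriv x g (fun s => pt c (T hpk x Λ η s S)) t
    (path_deriv hc g hpk x Λ η hx t S) F
  have h2 := (enG_deriv G β g hpk x Λ η hx t S).exp
  refine (h1.mul h2).congr_deriv ?_
  simp only [map_sub, map_mul]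
  ring

theorem key (hN : N ≠ 0) {c : Fin 3 → Fin N} (hc : Function.Injective c) (G : Gr (Tor L) ι)
    (β : ℝ) (g : Fin 3) (x : Tor L) (Λ : Finset (Tor L)) (η : Conf N L) (hx : x ∈ Λ)
    (F : Alg (Tor L)) :
    ∫ S, wt G β c (D x g F - S1 G β x g * F) (splice Λ S η) ∂(prior N L) = 0 := by
  haveI := prior_isProbabilityMeasure N L hN
  have hpk : c (g + 1) ≠ c (g + 2) := fun h => fin3_ne g (hc h)
  set P : Alg (Tor L) := D x g F - S1 G β x g * F with hP
  obtain ⟨C, hC⟩ : ∃ C, ∀ S : Conf N L, ‖wt G β c P S‖ ≤ C := by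
    rcases isEmpty_or_nonempty (Conf N L) with h | h
    · exact ⟨0, fun S => (h.false S).elim⟩
    · obtain ⟨S0, hS0⟩ := (continuous_wt G β c P).norm.exists_forall_ge_of_hasCompactSupport
        (HasCompactSupport.of_compactSpace _)
      exact ⟨_, hS0⟩
  have hmeas : ∀ (H : Alg (Tor L)) (t : ℝ), AEStronglyMeasurable
      (fun S => wt G β c H (T hpk x Λ η t S)) (prior N L) := by
    intro H t
    have h1 : Measurable (fun S : Conf N L => wt G β c H (splice Λ S η)) :=
      ((continuous_wt G β c H).comp (continuous_splice Λ η)).measurable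
    exact (h1.comp (rotC (c (g + 1)) (c (g + 2)) hpk (Pi.single x t)).measurable).aestronglyMeasurable
  have hd := hasDerivAt_integral_of_dominated_loc_of_deriv_le (μ := prior N L)
    (F := fun t S => wt G β c F (T hpk x Λ η t S))
    (F' := fun t S => wt G β c P (T hpk x Λ η t S)) (x₀ := 0) (s := Set.univ)
    (bound := fun _ => C)
    Filter.univ_mem (Filter.Eventually.of_forall fun t => hmeas F t)
    (by
      simp only [T_zero]
      exact integrable_wt G β Λ η c F)
    (hmeas P 0)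
    (Filter.Eventually.of_forall fun S t _ => hC _)
    (integrable_const C)
    (Filter.Eventually.of_forall fun S t _ => wt_deriv hc G β g hpk x Λ η hx F t S)
  have h2 := hd.2
  simp only [integral_const_T hN hpk x Λ η (wt G β c F), T_zero] at h2
  exact h2.unique (hasDerivAt_const _ _)

theorem EE_ibp (hN : N ≠ 0) (G : Gr (Tor L) ι) (β : ℝ) (Λ : Finset (Tor L)) (η : Conf N L)
    (c : Fin 3 → Fin N) (hc : Function.Injective c) (x : Tor L) (hx : x ∈ Λ) (g : Fin 3)
    (F : Alg (Tor L)) :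
    EE G β Λ η c (D x g F) = EE G β Λ η c (S1 G β x g * F) := by
  rw [← sub_eq_zero, ← map_sub]
  show gH (fun S => β * enG G S) Λ η (fun S => eval (pt c S) (D x g F - S1 G β x g * F)) = 0
  rw [gH_eq, key hN hc G β g x Λ η hx F, zero_div]

end Aux221

theorem gH_wfun {N L : ℕ} [NeZero L] (hN : N ≠ 0) {ι : Type} [Fintype ι]
    (G : Gr (Tor L) ι) (β : ℝ) (Λ : Finset (Tor L))
    (η : Conf N L) (c : Fin 3 → Fin N) (hc : Function.Injective c) :
    ∃ W : WFun G β Λ, ∀ F : Alg (Tor L),
      W.E F = gH (fun S => β * enG G S) Λ η (fun S => eval (pt c S) F) :=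
  ⟨⟨Aux221.EE G β Λ η c, Aux221.EE_one hN G β Λ η c, Aux221.EE_pos hN G β Λ η c hc,
    Aux221.EE_ibp hN G β Λ η c hc⟩, fun _ => rfl⟩

end Pool.Agent.H983R2.ONJ
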